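import Mathlib

set_option autoImplicit false

namespace Pool.Agent.Results.MP_c0f1e3_an.No

open Set Filter Topology Module

/-- the orbit of `v` under the subsemigroup of `GL(V)` generated by `G` -/
def orb {𝕜 V : Type} [RCLike 𝕜] [AddCommGroup V] [Module 𝕜 V] (G : Set (V ≃ₗ[𝕜] V)) (v : V) :
    Set V := {y | ∃ s ∈ Subsemigroup.closure G, s v = y}

theorem fin_lam {ι : Type} [Fintype ι] (c : ι → ℝ) (hc : ∀ i, 1 ≤ c i) (M : ℝ) :
    {x | x ≤ M ∧ ∃ n : ι → ℕ, ∑ i, n i * c i = x}.Finite := by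
  refine ((Finite.pi' (t := fun _ : ι => Iic ⌈M⌉₊) fun _ => finite_Iic _).image
    fun n : ι → ℕ => ∑ i, n i * c i).subset ?_
  rintro x ⟨h, n, rfl⟩
  refine ⟨n, fun i => ?_, rfl⟩
  have h1 : n i * c i ≤ ∑ i, n i * c i := Finset.single_le_sum (f := fun i => n i * c i)
    (fun j _ => mul_nonneg (Nat.cast_nonneg _) (zero_le_one.trans (hc j))) (Finset.mem_univ i)
  have h2 : (n i : ℝ) ≤ n i * c i := le_mul_of_one_le_right (Nat.cast_nonneg _) (hc i)
  exact Nat.cast_le.1 ((h2.trans (h1.trans h)).trans (Nat.le_ceil M))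

theorem result (𝕜 V : Type) [RCLike 𝕜] [NormedAddCommGroup V] [NormedSpace 𝕜 V]
    [FiniteDimensional 𝕜 V] (hV : 2 ≤ finrank 𝕜 V) (m : ℕ) (w : Fin m → V) (hw : ∀ i, w i ≠ 0) :
    ∃ G : Set (V ≃ₗ[𝕜] V), G.Finite ∧ G.Nonempty ∧ (∀ g ∈ G, ∀ h ∈ G, g * h = h * g) ∧
      (∃ v : V, ∃ D > 0, ∀ i, ∀ t : ℝ, 0 < t → ∃ y ∈ orb G v, dist y ((t : 𝕜) • w i) < D) ∧
      ∀ x : V, interior (closure (orb G x)) = ∅ := by
  have : Nontrivial V := Module.nontrivial_of_finrank_pos (R := 𝕜) (by omega)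
  obtain ⟨x0, hx0⟩ := exists_ne (0 : V)
  obtain ⟨φ, hφ⟩ := Module.exists_dual_forall_apply_ne_zero (K := 𝕜)
    (fun o : Option (Fin m) => o.elim x0 w) (fun o => by cases o; exacts [hx0, hw _])
  obtain ⟨e, he0, he⟩ : ∃ e, φ e = 0 ∧ e ≠ 0 := by
    by_contra h
    push Not at h
    have := LinearMap.finrank_le_finrank_of_injective ((injective_iff_map_eq_zero φ).2 h)
    rw [finrank_self] at this
    omega
  obtain ⟨ψ, hψ⟩ := Projective.exists_dual_eq_one 𝕜 he
  have hw' (i : Fin m) : φ (w i) ≠ 0 := hφ (some i)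
  let v1 : V := (φ x0)⁻¹ • x0
  have hv1 : φ v1 = 1 := by rw [map_smul]; exact inv_mul_cancel₀ (hφ none)
  let b : Fin m → ℝ := fun i => RCLike.re (ψ ((φ (w i))⁻¹ • w i - v1))
  let M : ℝ := 1 + ∑ i, |b i|
  let v : V := v1 - (M : 𝕜) • e
  have hv : φ v = 1 := by simp [v, hv1, he0]
  let z : Fin m → V := fun i => (φ (w i))⁻¹ • w i - v
  have hz (i : Fin m) : φ (z i) = 0 := by simp [z, hv, hw' i]
  let c : Fin m → ℝ := fun i => RCLike.re (ψ (z i))
  have hc (i : Fin m) : 1 ≤ c i := by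
    have e1 : z i = ((φ (w i))⁻¹ • w i - v1) + (M : 𝕜) • e := by simp only [z, v]; abel
    have e2 : c i = b i + M := by
      simp only [c, b]
      rw [e1, map_add, map_smul ψ (M : 𝕜), hψ, map_add, smul_eq_mul, mul_one, RCLike.ofReal_re]
    have := Finset.single_le_sum (f := fun i => |b i|) (fun j _ => abs_nonneg _) (Finset.mem_univ i)
    have := neg_abs_le (b i)
    simp only [e2, M]
    linarith
  have hE (a : 𝕜) (u : V) : ∃ E : V ≃ₗ[𝕜] V, a ≠ 0 → φ u = 0 →
      ∀ x, E x = a • (x + φ x • u) := by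
    by_cases h : a ≠ 0 ∧ φ u = 0
    · refine ⟨LinearEquiv.ofInjectiveEndo (a • (LinearMap.id + φ.smulRight u))
        ((injective_iff_map_eq_zero _).2 fun x hx => ?_), fun _ _ x => rfl⟩
      have h1 : x + φ x • u = 0 := (smul_eq_zero.1 hx).resolve_left h.1
      have h2 := congrArg φ h1
      rw [map_add, map_smul, h.2, smul_zero, add_zero, map_zero] at h2
      rwa [h2, zero_smul, add_zero] at h1
    · exact ⟨1, fun h1 h2 => absurd ⟨h1, h2⟩ h⟩
  choose E hE using hE
  let sc : ℝ → V ≃ₗ[𝕜] V := fun r => E (Real.exp r : ℝ) 0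
  have hexp (r : ℝ) : ((Real.exp r : ℝ) : 𝕜) ≠ 0 := RCLike.ofReal_ne_zero.2 (Real.exp_ne_zero r)
  have hsc (r : ℝ) (x : V) : sc r x = ((Real.exp r : ℝ) : 𝕜) • x := by
    rw [hE _ _ (hexp r) (map_zero φ), smul_zero, add_zero]
  let G : Set (V ≃ₗ[𝕜] V) := sc '' {√2, 1, -√2, -1} ∪ range fun i => E (φ (w i)) (z i)
  let Λ : Set ℝ := {x | ∃ n : Fin m → ℕ, ∑ i, n i * c i = x}
  have hS (s : V ≃ₗ[𝕜] V) (hs : s ∈ Subsemigroup.closure G) : ∃ (a : 𝕜) (u : V), a ≠ 0 ∧ φ u = 0 ∧
      RCLike.re (ψ u) ∈ Λ ∧ ∀ x, s x = a • (x + φ x • u) := by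
    induction hs using Subsemigroup.closure_induction with
    | mem s hs =>
      rcases hs with ⟨r, -, rfl⟩ | ⟨i, rfl⟩
      · exact ⟨_, 0, hexp r, map_zero φ, ⟨0, by simp⟩, hE _ _ (hexp r) (map_zero φ)⟩
      · exact ⟨_, z i, hw' i, hz i, ⟨Pi.single i 1, by simp [Pi.single_apply, c]⟩,
          hE _ _ (hw' i) (hz i)⟩
    | mul s s' _ _ h1 h2 =>
      obtain ⟨a, u, ha, hu, ⟨n, hn⟩, h⟩ := h1
      obtain ⟨a', u', ha', hu', ⟨n', hn'⟩, h'⟩ := h2
      refine ⟨a * a', u + u', mul_ne_zero ha ha', by rw [map_add, hu, hu', add_zero],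
        ⟨n + n', ?_⟩, fun x => ?_⟩
      · rw [map_add, map_add, ← hn, ← hn', ← Finset.sum_add_distrib]
        exact Finset.sum_congr rfl fun i _ => by simp [add_mul]
      · rw [LinearEquiv.mul_apply, h, h', map_smul, map_add, map_smul, hu']
        simp only [smul_eq_mul, mul_zero, add_zero]
        module
  refine ⟨G, ((toFinite _).image _).union (finite_range _), ⟨sc 1, Or.inl ⟨1, by simp, rfl⟩⟩,
    fun g hg h hh => ?_, ⟨v, 1, one_pos, fun i t ht => ?_⟩, fun x => ?_⟩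
  · obtain ⟨a, u, -, hu, -, h1⟩ := hS g (Subsemigroup.subset_closure hg)
    obtain ⟨a', u', -, hu', -, h2⟩ := hS h (Subsemigroup.subset_closure hh)
    ext x
    simp only [LinearEquiv.mul_apply, h1, h2, map_smul, map_add, hu, hu', smul_eq_mul, mul_zero,
      add_zero]
    module
  · have h1 (r : ℝ) (hr : r ∈ AddSubgroup.closure {√2, 1}) :
        ∀ y ∈ orb G v, ((Real.exp r : ℝ) : 𝕜) • y ∈ orb G v := by
      have h0 (r : ℝ) (hr : r ∈ ({√2, 1, -√2, -1} : Set ℝ)) :
          ∀ y ∈ orb G v, ((Real.exp r : ℝ) : 𝕜) • y ∈ orb G v := by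
        rintro _ ⟨s, hs, rfl⟩
        exact ⟨sc r * s, mul_mem (Subsemigroup.subset_closure (Or.inl ⟨r, hr, rfl⟩)) hs, hsc r _⟩
      induction hr using AddSubgroup.closure_induction'' with
      | mem r hr => exact h0 r (by rcases hr with rfl | rfl <;> simp)
      | neg_mem r hr => exact h0 (-r) (by rcases hr with rfl | rfl <;> simp)
      | zero => simp
      | add r r' _ _ h h' =>
        intro y hy
        rw [Real.exp_add, RCLike.ofReal_mul, mul_smul]
        exact h _ (h' y hy)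
    have h2 : w i ∈ orb G v := by
      refine ⟨_, Subsemigroup.subset_closure (Or.inr ⟨i, rfl⟩), ?_⟩
      rw [hE _ _ (hw' i) (hz i), hv, one_smul]
      simp only [z, add_sub_cancel, smul_inv_smul₀ (hw' i)]
    have hd : Dense (AddSubgroup.closure {√2, 1} : Set ℝ) :=
      dense_addSubgroupClosure_pair_iff.2 (by simpa using irrational_sqrt_two)
    have hcont : Continuous fun r : ℝ => dist (((Real.exp r : ℝ) : 𝕜) • w i) ((t : 𝕜) • w i) := by
      fun_prop
    obtain ⟨r, hr, hr2⟩ := hd.inter_open_nonempty _ (isOpen_lt hcont continuous_const (g := fun _ => 1))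
      ⟨Real.log t, by simp [Real.exp_log ht]⟩
    exact ⟨_, h1 r hr2 _ h2, hr⟩
  · have cφ : Continuous φ := φ.continuous_of_finiteDimensional
    have cψ : Continuous ψ := ψ.continuous_of_finiteDimensional
    refine eq_empty_of_forall_notMem fun y0 hy0 => ?_
    obtain ⟨y, hy, hφy⟩ : ∃ y ∈ interior (closure (orb G x)), φ y ≠ 0 := by
      by_cases h : φ y0 = 0
      · have : Tendsto (fun t : ℝ => y0 + (t : 𝕜) • v) (𝓝[>] 0) (𝓝 y0) :=
          tendsto_nhdsWithin_of_tendsto_nhds (Continuous.tendsto' (by fun_prop) _ _ (by simp))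
        obtain ⟨t, h1, h2⟩ := ((this.eventually (isOpen_interior.mem_nhds hy0)).and
          eventually_mem_nhdsWithin).exists
        exact ⟨_, h1, by simpa [h, hv] using ne_of_gt h2⟩
      · exact ⟨y0, hy0, h⟩
    let g : V → ℝ := fun y => RCLike.re (ψ y / φ y)
    have hfin := (fin_lam c hc (g y + 1 - g x)).image fun l => g x + l
    have key (p : V) (hp : p ∈ closure (orb G x)) (h1 : φ p ≠ 0) (h2 : g p < g y + 1) :
        g p ∈ (fun l => g x + l) '' {l | l ≤ g y + 1 - g x ∧ l ∈ Λ} := by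
      have hg : ContinuousAt g p := RCLike.continuous_re.continuousAt.comp
        (cψ.continuousAt.div cφ.continuousAt h1)
      refine hfin.isClosed.mem_of_frequently_of_tendsto ?_ hg
      refine ((mem_closure_iff_frequently.1 hp).and_eventually
        ((cφ.continuousAt.eventually_ne h1).and (hg.eventually (gt_mem_nhds h2)))).mono ?_
      rintro _ ⟨⟨s, hs, rfl⟩, h3, h4⟩
      obtain ⟨a, u, ha, hu, hl, h⟩ := hS s hs
      have h5 : φ (s x) = a * φ x := by simp [h, hu]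
      have h6 : φ x ≠ 0 := fun h0 => h3 (by rw [h5, h0, mul_zero])
      have h7 : g (s x) = g x + RCLike.re (ψ u) := by
        simp only [g]
        rw [h5, h, ← map_add]
        congr 1
        simp only [map_smul, map_add, smul_eq_mul]
        field_simp
      exact ⟨_, ⟨by linarith, hl⟩, h7.symm⟩
    have h1 : Tendsto (fun t : ℝ => y + ((t : 𝕜) * φ y) • e) (𝓝 0) (𝓝 y) :=
      Continuous.tendsto' (by fun_prop) _ _ (by simp)
    have h2 : ∀ᶠ t : ℝ in 𝓝 0, g y + t ∈ (fun l => g x + l) '' {l | l ≤ g y + 1 - g x ∧ l ∈ Λ} := by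
      filter_upwards [h1.eventually (isOpen_interior.mem_nhds hy), gt_mem_nhds one_pos] with t ht ht1
      have e1 : φ (y + ((t : 𝕜) * φ y) • e) = φ y := by simp [he0]
      have e2 : g (y + ((t : 𝕜) * φ y) • e) = g y + t := by
        simp only [g]
        rw [e1, map_add, map_smul, hψ, smul_eq_mul, mul_one, add_div, mul_div_assoc, div_self hφy,
          mul_one, map_add, RCLike.ofReal_re]
      rw [← e2]
      exact key _ (interior_subset ht) (by rwa [e1]) (by rw [e2]; linarith)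
    exact infinite_of_mem_nhds _ h2 (hfin.preimage (add_right_injective (g y)).injOn)

end Pool.Agent.Results.MP_c0f1e3_an.No
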